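import Mathlib
import Pool.Agent.Lib_helper98.RenyiInt4

/-!
# A reflective checker for trace identities in two commuting pairs of letters

Words are lists of booleans (`false` the first letter, `true` the second one); a key is a pair of
words; a polynomial is a list of integer multiples of keys.
-/

set_option autoImplicit false
set_option linter.unusedSectionVars false
set_option linter.unusedSimpArgs false

open scoped Kronecker ComplexOrder

namespace Pool.Agent.Lib_helper57.INT

open Matrix Pool.Agent.Lib_helper98.Renyi

/-- words -/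
abbrev Wd := List Bool

/-- keys: a word in the first pair of letters and a word in the second -/
abbrev Ky := Wd × Wd

/-- polynomials -/
abbrev Pl := List (ℤ × Ky)

/-- lexicographic order -/
def wlt : Wd → Wd → Bool
  | [], [] => false
  | [], _ :: _ => true
  | _ :: _, [] => false
  | false :: v, false :: w => wlt v w
  | true :: v, true :: w => wlt v w
  | false :: _, true :: _ => true
  | true :: _, false :: _ => false

/-- equality test -/
def weq : Wd → Wd → Bool
  | [], [] => true
  | [], _ :: _ => false
  | _ :: _, [] => false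
  | false :: v, false :: w => weq v w
  | true :: v, true :: w => weq v w
  | false :: _, true :: _ => false
  | true :: _, false :: _ => false

theorem weq_eq : ∀ {v w : Wd}, weq v w = true → v = w
  | [], [], _ => rfl
  | [], _ :: _, h => by simp [weq] at h
  | _ :: _, [], h => by simp [weq] at h
  | false :: v, false :: w, h => by rw [weq_eq (v := v) (w := w) (by simpa [weq] using h)]
  | true :: v, true :: w, h => by rw [weq_eq (v := v) (w := w) (by simpa [weq] using h)]
  | false :: _, true :: _, h => by simp [weq] at h
  | true :: _, false :: _, h => by simp [weq] at h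

/-- rotation -/
def rot : Wd → Wd
  | [] => []
  | a :: w => w ++ [a]

/-- smaller of two words -/
def wmin (v w : Wd) : Wd := cond (wlt w v) w v

/-- best rotation -/
def canonAux : ℕ → Wd → Wd → Wd
  | 0, _, best => best
  | k + 1, cur, best => canonAux k (rot cur) (wmin best (rot cur))

/-- least rotation -/
def canon (w : Wd) : Wd := canonAux w.length w w

/-- canonical key under the two rotations and the simultaneous reversal -/
def key1 (a b : Ky) : Ky :=
  cond (wlt b.1 a.1) b (cond (wlt a.1 b.1) a (cond (wlt b.2 a.2) b a))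

/-- canonical key -/
def key (k : Ky) : Ky :=
  key1 (canon k.1, canon k.2) (canon k.1.reverse, canon k.2.reverse)

/-- insertion in a collected list -/
def ins (c : ℤ) (k : Ky) : Pl → Pl
  | [] => [(c, k)]
  | (d, l) :: p => cond (weq k.1 l.1 && weq k.2 l.2) ((c + d, l) :: p) ((d, l) :: ins c k p)

/-- collection -/
def collect : Pl → Pl → Pl
  | [], acc => acc
  | (c, k) :: p, acc => collect p (ins c (key k) acc)

/-- all coefficients vanish -/
def allZero : Pl → Bool
  | [] => true
  | (c, _) :: p => decide (c = 0) && allZero p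

/-- product by a monomial -/
def mulM (c : ℤ) (k : Ky) : Pl → Pl
  | [] => []
  | (d, l) :: p => (c * d, (k.1 ++ l.1, k.2 ++ l.2)) :: mulM c k p

/-- product -/
def mulL : Pl → Pl → Pl
  | [], _ => []
  | (c, k) :: p, q => mulM c k q ++ mulL p q

/-- adjoint -/
def adjL (p : Pl) : Pl := p.map fun x => (x.1, (x.2.1.reverse, x.2.2.reverse))

/-- multiple -/
def smulL (c : ℤ) (p : Pl) : Pl := p.map fun x => (c * x.1, x.2)

/-- A representation of the keys with a real functional. -/
structure Rp {R : Type*} [Ring R] [StarRing R] (E : Ky → R) (t : R →+ ℝ) : Prop where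
  one : E ([], []) = 1
  mul : ∀ a b : Ky, E (a.1 ++ b.1, a.2 ++ b.2) = E a * E b
  st : ∀ a : Ky, E (a.1.reverse, a.2.reverse) = star (E a)
  rot1 : ∀ v w : Wd, t (E (rot v, w)) = t (E (v, w))
  rot2 : ∀ v w : Wd, t (E (v, rot w)) = t (E (v, w))
  rev : ∀ v w : Wd, t (E (v.reverse, w.reverse)) = t (E (v, w))

section

variable {R : Type*} [Ring R] [StarRing R] {E : Ky → R} {t : R →+ ℝ}

/-- evaluation -/
def mat (E : Ky → R) : Pl → R
  | [] => 0
  | (c, k) :: p => c • E k + mat E p

/-- value -/
def val (E : Ky → R) (t : R →+ ℝ) : Pl → ℝ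
  | [] => 0
  | (c, k) :: p => (c : ℝ) * t (E k) + val E t p

theorem val_eq (p : Pl) : val E t p = t (mat E p) := by
  induction p with
  | nil => simp [val, mat]
  | cons x p ih =>
    obtain ⟨c, k⟩ := x
    rw [val, mat, map_add, map_zsmul, ih, zsmul_eq_mul]

theorem mat_append (p q : Pl) : mat E (p ++ q) = mat E p + mat E q := by
  induction p with
  | nil => simp [mat]
  | cons x p ih =>
    obtain ⟨c, k⟩ := x
    simp [mat, ih, add_assoc]

theorem mat_mulM (h : Rp E t) (c : ℤ) (k : Ky) (p : Pl) :
    mat E (mulM c k p) = (c • E k) * mat E p := by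
  induction p with
  | nil => simp [mat, mulM]
  | cons x p ih =>
    obtain ⟨d, l⟩ := x
    simp only [mat, mulM, ih, h.mul, mul_add, smul_mul_assoc, mul_smul_comm, smul_smul,
      mul_comm c d]

theorem mat_mulL (h : Rp E t) (p q : Pl) : mat E (mulL p q) = mat E p * mat E q := by
  induction p with
  | nil => simp [mat, mulL]
  | cons x p ih =>
    obtain ⟨c, k⟩ := x
    simp only [mat, mulL, mat_append, mat_mulM h, ih, add_mul]

theorem mat_adjL (h : Rp E t) (p : Pl) : mat E (adjL p) = star (mat E p) := by
  induction p with
  | nil => simp [mat, adjL]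
  | cons x p ih =>
    obtain ⟨c, k⟩ := x
    have : adjL ((c, k) :: p) = (c, (k.1.reverse, k.2.reverse)) :: adjL p := rfl
    rw [this]
    simp only [mat, ih, h.st, star_add, star_smul]
    congr 2

theorem mat_smulL (c : ℤ) (p : Pl) : mat E (smulL c p) = c • mat E p := by
  induction p with
  | nil => simp [mat, smulL]
  | cons x p ih =>
    obtain ⟨d, k⟩ := x
    have : smulL c ((d, k) :: p) = (c * d, k) :: smulL c p := rfl
    rw [this]
    simp only [mat, ih, smul_add, smul_smul]

theorem canonAux_inv {f : Wd → ℝ} (hf : ∀ w, f (rot w) = f w) (x : ℝ) :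
    ∀ (k : ℕ) (cur best : Wd), f cur = x → f best = x → f (canonAux k cur best) = x
  | 0, _, _, _, h2 => h2
  | k + 1, cur, best, h1, h2 => by
    rw [canonAux]
    apply canonAux_inv hf x k
    · rw [hf, h1]
    · unfold wmin
      cases wlt (rot cur) best
      · exact h2
      · show f (rot cur) = x
        rw [hf, h1]

theorem canon_inv {f : Wd → ℝ} (hf : ∀ w, f (rot w) = f w) (w : Wd) : f (canon w) = f w :=
  canonAux_inv hf (f w) _ _ _ rfl rfl

theorem key_inv (h : Rp E t) (k : Ky) : t (E (key k)) = t (E k) := by
  have h1 : ∀ v w : Wd, t (E (canon v, canon w)) = t (E (v, w)) := by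
    intro v w
    rw [canon_inv (f := fun x => t (E (x, canon w))) (fun x => h.rot1 x _) v,
      canon_inv (f := fun x => t (E (v, x))) (fun x => h.rot2 v x) w]
  have h2 : t (E (canon k.1, canon k.2)) = t (E k) := h1 _ _
  have h3 : t (E (canon k.1.reverse, canon k.2.reverse)) = t (E k) := by
    rw [h1, h.rev]
  unfold key key1
  simp only
  cases wlt (canon k.1.reverse) (canon k.1)
  · cases wlt (canon k.1) (canon k.1.reverse)
    · cases wlt (canon k.2.reverse) (canon k.2)
      · exact h2
      · exact h3
    · exact h2
  · exact h3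

theorem val_ins (c : ℤ) (k : Ky) (p : Pl) :
    val E t (ins c k p) = (c : ℝ) * t (E k) + val E t p := by
  induction p with
  | nil => simp [ins, val]
  | cons x p ih =>
    obtain ⟨d, l⟩ := x
    unfold ins
    rcases hb : (weq k.1 l.1 && weq k.2 l.2) with _ | _
    · simp only [cond_false, val, ih]
      ring
    · rw [Bool.and_eq_true] at hb
      have : k = l := Prod.ext (weq_eq hb.1) (weq_eq hb.2)
      subst this
      simp only [cond_true, val]
      push_cast
      ring

theorem val_collect (h : Rp E t) (p acc : Pl) :
    val E t (collect p acc) = val E t p + val E t acc := by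
  induction p generalizing acc with
  | nil => simp [collect, val]
  | cons x p ih =>
    obtain ⟨c, k⟩ := x
    rw [collect, ih, val_ins, key_inv h, val]
    ring

theorem val_allZero {p : Pl} (h : allZero p = true) : val E t p = 0 := by
  induction p with
  | nil => rfl
  | cons x p ih =>
    obtain ⟨c, k⟩ := x
    rw [allZero, Bool.and_eq_true, decide_eq_true_eq] at h
    rw [val, h.1, ih h.2]
    simp

/-- The check. -/
def chk (p : Pl) : Bool := allZero (collect p [])

theorem of_chk (h : Rp E t) {p : Pl} (hp : chk p = true) : t (mat E p) = 0 := by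
  rw [← val_eq]
  have := val_collect (E := E) (t := t) h p []
  rw [val_allZero hp] at this
  simpa [val] using this.symm

/-- Sum of multiples of squares `M Y* Y`. -/
def sosL (M : Bool → Pl) : List (ℕ × Bool × Pl) → Pl
  | [] => []
  | (c, s, y) :: l => smulL c (mulL (M s) (mulL (adjL y) y)) ++ sosL M l

theorem sos_nonneg (h : Rp E t) {M : Bool → Pl}
    (hM : ∀ s, ∀ y : R, 0 ≤ t (mat E (M s) * (star y * y))) (l : List (ℕ × Bool × Pl)) :
    0 ≤ t (mat E (sosL M l)) := by
  induction l with
  | nil => simp [sosL, mat]
  | cons x l ih =>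
    obtain ⟨c, s, y⟩ := x
    rw [sosL, mat_append, map_add, mat_smulL, mat_mulL h, mat_mulL h, mat_adjL h, map_zsmul]
    refine add_nonneg ?_ ih
    rw [zsmul_eq_mul]
    exact mul_nonneg (by simp) (hM s _)

/-- A certificate: `target = sos`. -/
theorem cert (h : Rp E t) {M : Bool → Pl}
    (hM : ∀ s, ∀ y : R, 0 ≤ t (mat E (M s) * (star y * y))) {target : Pl}
    (l : List (ℕ × Bool × Pl)) (hc : chk (target ++ smulL (-1) (sosL M l)) = true) :
    0 ≤ t (mat E target) := by
  have h1 := of_chk h hc
  rw [mat_append, mat_smulL, map_add, map_zsmul] at h1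
  have h2 := sos_nonneg h hM l
  have h3 : t (mat E target) = t (mat E (sosL M l)) := by
    have : ((-1 : ℤ) • t (mat E (sosL M l)) : ℝ) = - t (mat E (sosL M l)) := by simp
    rw [this] at h1
    linarith
  rw [h3]
  exact h2

end

end Pool.Agent.Lib_helper57.INT
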