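import Mathlib
import Pool.Agent.Lib_helper57.INT.Chk

/-!
# The certificate for `α = 7`: the tensor identity
-/

set_option autoImplicit false

namespace Pool.Agent.Lib_helper57.INT

/-- `A ⊗ A' + D ⊗ D'` -/
def mP : Pl := [(1, ([false], [false])), (1, ([true], [true]))]

/-- `[A, D] ⊗ 1` -/
def cA : Pl := [(1, ([false, true], [])), (-1, ([true, false], []))]

/-- `1 ⊗ [A', D']` -/
def cB : Pl := [(1, ([], [false, true])), (-1, ([], [true, false]))]

def x1 : Pl := mulL cA (mulL cB mP)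
def x2 : Pl := mulL mP (mulL cA cB)
def x3 : Pl := mulL cA (mulL mP cB)
def x4 : Pl := mulL cB (mulL mP cA)

def powL (p : Pl) : ℕ → Pl
  | 0 => [(1, ([], []))]
  | n + 1 => mulL p (powL p n)

/-- the words of length `k` with `j` letters `true` -/
def wds : ℕ → ℕ → List Wd
  | 0, 0 => [[]]
  | 0, _ + 1 => []
  | k + 1, 0 => (wds k 0).map (false :: ·)
  | k + 1, j + 1 => (wds k (j + 1)).map (false :: ·) ++ (wds k j).map (true :: ·)

/-- `c • (∑ v) ⊗ (∑ w)` -/
def prodL (c : ℤ) (vs ws : List Wd) : Pl :=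
  vs.flatMap fun v => ws.map fun w => (c, (v, w))

/-- `18900 • (P ^ 7 - Weyl)` -/
def tgt7 : Pl :=
  smulL 18900 (powL mP 7) ++
  (prodL (-18900) (wds 7 0) (wds 7 0) ++ prodL (-2700) (wds 7 1) (wds 7 1) ++
    prodL (-900) (wds 7 2) (wds 7 2) ++ prodL (-540) (wds 7 3) (wds 7 3) ++
    prodL (-540) (wds 7 4) (wds 7 4) ++ prodL (-900) (wds 7 5) (wds 7 5) ++
    prodL (-2700) (wds 7 6) (wds 7 6) ++ prodL (-18900) (wds 7 7) (wds 7 7))

def crt7 : List (ℕ × Bool × Pl) :=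
  [(392, false, smulL 15 x1 ++ smulL 4 (x3 ++ x4)),
   (6615, false, smulL 4 x2 ++ (x3 ++ x4)),
   (42973, false, x3 ++ x4),
   (29400, false, x3 ++ smulL (-1) x4)]

set_option maxRecDepth 100000 in
theorem chk7 : chk (tgt7 ++ smulL (-1) (sosL (fun _ => mP) crt7)) = true := by
  decide +kernel

end Pool.Agent.Lib_helper57.INT
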