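import Mathlib
import Pool.Agent.Lib_helper57.INT.M7

/-!
# `α = 7`
-/

set_option autoImplicit false
set_option linter.unusedSectionVars false
set_option linter.unusedSimpArgs false

open scoped Kronecker ComplexOrder

namespace Pool.Agent.Lib_helper57.INT

open Matrix Pool.Agent.Lib_helper98.Renyi

section

variable {n m : Type*} [Fintype n] [DecidableEq n] [Fintype m] [DecidableEq m]
variable {A D : Matrix n n ℂ} {A' D' : Matrix m m ℂ}

theorem mat_mA (A D : Matrix n n ℂ) : ∀ s, mat (E1 A D) (mA s) = cond s (A - D) (A + D)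
  | false => by simp [mA, mat, E1, ev]
  | true => by simp [mA, mat, E1, ev, sub_eq_add_neg]

theorem mA_pos (h : Adm A D) (s : Bool) (y : Matrix n n ℂ) :
    0 ≤ rtH n (mat (E1 A D) (mA s) * (star y * y)) := by
  rw [mat_mA]
  cases s
  · exact rt_pos h.add y
  · exact rt_pos h.sub y

theorem mat_mP (A D : Matrix n n ℂ) (A' D' : Matrix m m ℂ) :
    mat (E2 A D A' D') mP = A ⊗ₖ A' + D ⊗ₖ D' := by
  simp [mP, mat, E2, ev]

theorem t_tgtP (A D : Matrix n n ℂ) (hA : A.IsHermitian) (hD : D.IsHermitian) (s : Bool) (k : ℕ)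
    (l : List (ℤ × ℕ)) : rtH n (mat (E1 A D) (tgtP s k l)) =
      rt ((cond s (A - D) (A + D)) ^ k) + (l.map fun x => (x.1 : ℝ) * Sj A D k x.2).sum := by
  rw [tgtP, mat_append', map_add, mat_powL (rp1 hA hD), mat_mA, rtH_apply]
  congr 1
  induction l with
  | nil => simp [mat]
  | cons x l ih =>
    rw [List.flatMap_cons, mat_append', map_add, ih, t_sumL, List.map_cons, List.sum_cons, Sj]

theorem Sj_zero (A D : Matrix n n ℂ) (k : ℕ) : Sj A D k 0 = rt (A ^ k) := by
  have h1 : ∀ k, wds k 0 = [List.replicate k false] := by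
    intro k
    induction k with
    | zero => rfl
    | succ k ih => rw [wds, ih]; rfl
  have h2 : ∀ k, ev A D (List.replicate k false) = A ^ k := by
    intro k
    induction k with
    | zero => rfl
    | succ k ih => rw [List.replicate_succ, ev, ih, pow_succ']
  rw [Sj, h1, List.map_cons, List.sum_cons, h2]
  simp

theorem Gfun_seven (h : Adm A D) :
    Gfun 7 A D = Sj A D 7 2 + Sj A D 7 4 + Sj A D 7 6 := by
  have h3 : (7 : ℝ) = ((7 : ℕ) : ℝ) := by norm_num
  rw [Gfun, h3, trPow_nat (by norm_num) h.psd, trPow_nat (by norm_num) h.add,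
    trPow_nat (by norm_num) h.sub]
  have a := of_chk (rp1 h.psd.1 h.herm) chkP7
  have b := of_chk (rp1 h.psd.1 h.herm) chkN7
  rw [t_tgtP _ _ h.psd.1 h.herm] at a b
  simp only [cond_false, cond_true, List.map_cons, List.map_nil, List.sum_cons, List.sum_nil] at a b
  rw [← Sj_zero A D]
  push_cast at a b
  linarith

theorem cS_im7 (hA : A.IsHermitian) (hD : D.IsHermitian) {j : ℕ} (hj : j < 8) :
    (cS A D (wds 7 j)).im = 0 := by
  have := chkR7
  rw [List.all_eq_true] at this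
  exact cS_im hA hD (this j (List.mem_range.2 hj))

theorem t_prod7 (hA : A.IsHermitian) (hD : D.IsHermitian) (A' D' : Matrix m m ℂ) {j : ℕ}
    (hj : j < 8) (c : ℤ) :
    rtH (n × m) (mat (E2 A D A' D') (prodL c (wds 7 j) (wds 7 j))) =
      (c : ℝ) * (Sj A D 7 j * Sj A' D' 7 j) := by
  rw [t_prodL, Complex.mul_re, cS_im7 hA hD hj, cS_re, cS_re, Sj, Sj]
  ring

/-- The gap certificate. -/
theorem gap7 (hA : A.IsHermitian) (hD : D.IsHermitian) (hA' : A'.IsHermitian)
    (hD' : D'.IsHermitian) (hM : (A ⊗ₖ A' + D ⊗ₖ D').PosSemidef) :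
    18900 * (Sj A D 7 0 * Sj A' D' 7 0) + 2700 * (Sj A D 7 1 * Sj A' D' 7 1) +
      900 * (Sj A D 7 2 * Sj A' D' 7 2) + 540 * (Sj A D 7 3 * Sj A' D' 7 3) +
      540 * (Sj A D 7 4 * Sj A' D' 7 4) + 900 * (Sj A D 7 5 * Sj A' D' 7 5) +
      2700 * (Sj A D 7 6 * Sj A' D' 7 6) + 18900 * (Sj A D 7 7 * Sj A' D' 7 7) ≤
    18900 * rt ((A ⊗ₖ A' + D ⊗ₖ D') ^ 7) := by
  have hr := rp2 hA hD hA' hD'
  have h := cert hr (M := fun _ => mP) (fun s y => by
    rw [mat_mP]; exact rt_pos hM y) crt7 chk7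
  rw [tgt7, mat_append', mat_smulL, mat_powL hr, mat_mP, map_add, map_zsmul] at h
  simp only [mat_append', map_add] at h
  rw [t_prod7 hA hD A' D' (by norm_num : 0 < 8), t_prod7 hA hD A' D' (by norm_num : 1 < 8),
    t_prod7 hA hD A' D' (by norm_num : 2 < 8), t_prod7 hA hD A' D' (by norm_num : 3 < 8),
    t_prod7 hA hD A' D' (by norm_num : 4 < 8), t_prod7 hA hD A' D' (by norm_num : 5 < 8),
    t_prod7 hA hD A' D' (by norm_num : 6 < 8), t_prod7 hA hD A' D' (by norm_num : 7 < 8),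
    zsmul_eq_mul, rtH_apply] at h
  push_cast at h
  linarith

theorem mu72 (h : Adm A D) :
    61032951166800 * Sj A D 7 4 ≤ 101721585278000 * Sj A D 7 2 := by
  have h1 := cert (rp1 h.psd.1 h.herm) (mA_pos h) crtM72 chkM72
  rw [tgtM72, mat_append', map_add, t_sumL, t_sumL] at h1
  change 0 ≤ _ * Sj A D 7 2 + _ * Sj A D 7 4 at h1
  push_cast at h1
  linarith

theorem mu74 (h : Adm A D) : 30 * Sj A D 7 6 ≤ 6 * Sj A D 7 4 := by
  have h1 := cert (rp1 h.psd.1 h.herm) (mA_pos h) crtM74 chkM74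
  rw [tgtM74, mat_append', map_add, t_sumL, t_sumL] at h1
  change 0 ≤ _ * Sj A D 7 4 + _ * Sj A D 7 6 at h1
  push_cast at h1
  linarith

theorem Sj_neg (A D : Matrix n n ℂ) (k j : ℕ) : Sj A (-D) k j = (-1) ^ j * Sj A D k j := by
  have key : ∀ (k j : ℕ) (w : Wd), w ∈ wds k j → ev A (-D) w = (-1 : ℂ) ^ j • ev A D w := by
    intro k
    induction k with
    | zero =>
      intro j w hw
      cases j with
      | zero => simp [wds] at hw; subst hw; simp [ev]
      | succ j => simp [wds] at hw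
    | succ k ih =>
      intro j w hw
      cases j with
      | zero =>
        simp only [wds, List.mem_map] at hw
        obtain ⟨v, hv, rfl⟩ := hw
        rw [ev, ev, ih 0 v hv]
        simp
      | succ j =>
        simp only [wds, List.mem_append, List.mem_map] at hw
        rcases hw with ⟨v, hv, rfl⟩ | ⟨v, hv, rfl⟩
        · rw [ev, ev, ih (j + 1) v hv, Matrix.mul_smul]
        · rw [ev, ev, ih j v hv, Matrix.mul_smul, Matrix.neg_mul, pow_succ]
          simp
  have h2 : ∀ w ∈ wds k j, rt (ev A (-D) w) = (-1) ^ j * rt (ev A D w) := by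
    intro w hw
    rw [key k j w hw, rt, trace_smul, smul_eq_mul, rt]
    rcases neg_one_pow_eq_or ℂ j with h | h
    · rcases neg_one_pow_eq_or ℝ j with h' | h'
      · rw [h, h']; simp
      · exfalso
        rw [← Complex.ofReal_one, ← Complex.ofReal_neg, ← Complex.ofReal_pow, h',
          Complex.ofReal_inj] at h
        norm_num at h
    · rcases neg_one_pow_eq_or ℝ j with h' | h'
      · exfalso
        rw [← Complex.ofReal_one, ← Complex.ofReal_neg, ← Complex.ofReal_pow, h',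
          Complex.ofReal_inj] at h
        norm_num at h
      · rw [h, h']; simp
  rw [Sj, Sj, ← List.sum_map_mul_left]
  exact congrArg List.sum (List.map_congr_left h2)

theorem kron_neg (D : Matrix n n ℂ) (D' : Matrix m m ℂ) : D ⊗ₖ (-D') = -(D ⊗ₖ D') := by
  ext ⟨i, j⟩ ⟨k, l⟩
  simp [kronecker_apply]

/-- **The key inequality for `α = 7`.** -/
theorem key_seven (h : Adm A D) (h' : Adm A' D') :
    Gfun 7 A D * Gfun 7 A' D' ≤ (2 ^ ((7 : ℝ) - 1) - 1) * Gfun 7 (A ⊗ₖ A') (D ⊗ₖ D') := by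
  have hk := h.kron h'
  have hp : (2 : ℝ) ^ ((7 : ℝ) - 1) = 64 := by
    rw [show (7 : ℝ) - 1 = ((6 : ℕ) : ℝ) by norm_num, Real.rpow_natCast]; norm_num
  have g1 := gap7 h.psd.1 h.herm h'.psd.1 h'.herm hk.add
  have hD'n : (-D').IsHermitian := h'.herm.neg
  have hn : (A ⊗ₖ A' + D ⊗ₖ (-D')).PosSemidef := by
    rw [kron_neg, ← sub_eq_add_neg]; exact hk.sub
  have g2 := gap7 h.psd.1 h.herm h'.psd.1 hD'n hn
  rw [kron_neg, ← sub_eq_add_neg] at g2
  simp only [Sj_neg] at g2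
  have g3 : Gfun 7 (A ⊗ₖ A') (D ⊗ₖ D') = (rt ((A ⊗ₖ A' + D ⊗ₖ D') ^ 7) +
      rt ((A ⊗ₖ A' - D ⊗ₖ D') ^ 7)) / 2 - Sj A D 7 0 * Sj A' D' 7 0 := by
    have h3 : (7 : ℝ) = ((7 : ℕ) : ℝ) := by norm_num
    have h0 : rt ((A ⊗ₖ A') ^ 7) = rt (A ^ 7) * rt (A' ^ 7) := by
      have e : ∀ k : ℕ, (A ⊗ₖ A') ^ k = (A ^ k) ⊗ₖ (A' ^ k) := by
        intro k
        induction k with
        | zero => simp
        | succ k ih => rw [pow_succ, ih, ← mul_kronecker_mul, ← pow_succ, ← pow_succ]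
      rw [e, rt_kron]
      have hh : (A ^ 7).IsHermitian := h.psd.1.pow 7
      have : star (trace (A ^ 7)) = trace (A ^ 7) := by
        rw [← trace_conjTranspose, hh.eq]
      have h5 := congrArg Complex.im this
      simp at h5
      linarith
    rw [Gfun, h3, trPow_nat (by norm_num) hk.psd, trPow_nat (by norm_num) hk.add,
      trPow_nat (by norm_num) hk.sub, h0, Sj_zero, Sj_zero]
  rw [g3, Gfun_seven h, Gfun_seven h', hp]
  have a1 := mu72 h
  have a2 := mu74 h
  have b1 := mu72 h'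
  have b2 := mu74 h'
  generalize rt ((A ⊗ₖ A' + D ⊗ₖ D') ^ 7) = P at *
  generalize rt ((A ⊗ₖ A' - D ⊗ₖ D') ^ 7) = Q at *
  generalize Sj A D 7 0 = s0 at *
  generalize Sj A D 7 1 = s1 at *
  generalize Sj A D 7 2 = s2 at *
  generalize Sj A D 7 3 = s3 at *
  generalize Sj A D 7 4 = s4 at *
  generalize Sj A D 7 5 = s5 at *
  generalize Sj A D 7 6 = s6 at *
  generalize Sj A D 7 7 = s7 at *
  generalize Sj A' D' 7 0 = r0 at *
  generalize Sj A' D' 7 1 = r1 at *
  generalize Sj A' D' 7 2 = r2 at *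
  generalize Sj A' D' 7 3 = r3 at *
  generalize Sj A' D' 7 4 = r4 at *
  generalize Sj A' D' 7 5 = r5 at *
  generalize Sj A' D' 7 6 = r6 at *
  generalize Sj A' D' 7 7 = r7 at *
  have c1 : 0 ≤ s2 / 21 - s4 / 35 := by linarith
  have c2 : 0 ≤ s4 / 35 - s6 / 7 := by linarith
  have d1 : 0 ≤ r2 / 21 - r4 / 35 := by linarith
  have d2 : 0 ≤ r4 / 35 - r6 / 7 := by linarith
  have e1 := mul_nonneg c1 d1
  have e2 := mul_nonneg c2 d2
  have e3 := mul_nonneg (add_nonneg c1 c2) (add_nonneg d1 d2)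
  norm_num at g1 g2
  nlinarith [g1, g2, e1, e2, e3]

end

section final

variable {b₁ b₂ : Type*} [Fintype b₁] [DecidableEq b₁] [Fintype b₂] [DecidableEq b₂]

/-- **Theorem.** The inequality `H ≤ F` for `α = 7` and all pairs of quantum states. -/
theorem alpha_seven (σ₁ : Fin 2 → Matrix b₁ b₁ ℂ) (σ₂ : Fin 2 → Matrix b₂ b₂ ℂ)
    (h₁ : ∀ x, IsDensity (σ₁ x)) (h₂ : ∀ x, IsDensity (σ₂ x)) :
    Hsum 7 σ₁ σ₂ ≤ Fval 7 σ₁ σ₂ :=
  Hsum_le_Fval h₁ h₂ (by norm_num) (by norm_num)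
    (key_seven (adm_of_density h₁ (by norm_num)) (adm_of_density h₂ (by norm_num)))

end final

end Pool.Agent.Lib_helper57.INT
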