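import Mathlib
import Pool.Agent.Lib_helper57.INT.Rep

/-!
# A faster checker: natural number codes, tables and Kronecker substitution
-/

set_option autoImplicit false
set_option linter.unusedSectionVars false
set_option linter.unusedSimpArgs false

namespace Pool.Agent.Lib_helper57.INT

/-- code of a word, first letter in the lowest bit -/
def code : Wd → ℕ
  | [] => 0
  | true :: w => 2 * code w + 1
  | false :: w => 2 * code w

/-- word of length `k` with a given code -/
def dec : ℕ → ℕ → Wd
  | 0, _ => []
  | k + 1, n => (Nat.beq (n % 2) 1) :: dec k (n / 2)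

theorem dec_code : ∀ w : Wd, dec w.length (code w) = w
  | [] => rfl
  | true :: w => by
    rw [List.length_cons, code, dec]
    have h1 : (2 * code w + 1) % 2 = 1 := by omega
    have h2 : (2 * code w + 1) / 2 = code w := by omega
    rw [h1, h2, dec_code w]
    rfl
  | false :: w => by
    rw [List.length_cons, code, dec]
    have h1 : (2 * code w) % 2 = 0 := by omega
    have h2 : (2 * code w) / 2 = code w := by omega
    rw [h1, h2, dec_code w]
    rfl

theorem code_lt : ∀ w : Wd, code w < 2 ^ w.length
  | [] => by simp [code]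
  | true :: w => by
    have := code_lt w
    rw [List.length_cons, code, pow_succ]; omega
  | false :: w => by
    have := code_lt w
    rw [List.length_cons, code, pow_succ]; omega

/-- Tables. -/
structure Tab where
  k : ℕ
  n : ℕ
  TC : ℕ
  TR : ℕ
  TX : ℕ
  TP : ℕ
  TQ : ℕ

/-- class of a code -/
def cls (T : Tab) (c : ℕ) : ℕ := (T.TC >>> (8 * c)) % 256
/-- representative of a class -/
def rpw (T : Tab) (a : ℕ) : Wd := dec T.k ((T.TR >>> (16 * a)) % 65536)
/-- reversed class -/
def rvc (T : Tab) (a : ℕ) : ℕ := (T.TX >>> (8 * a)) % 256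
/-- index of a pair of classes -/
def pix (T : Tab) (a b : ℕ) : ℕ := (T.TP >>> (12 * (128 * a + b))) % 4096
/-- pair of classes with a given index -/
def piq (T : Tab) (i : ℕ) : ℕ := (T.TQ >>> (16 * i)) % 65536

/-- all numbers below -/
def allB (f : ℕ → Bool) : ℕ → Bool
  | 0 => true
  | n + 1 => f n && allB f n

theorem allB_spec {f : ℕ → Bool} : ∀ {n : ℕ}, allB f n = true → ∀ i < n, f i = true
  | 0, _, i, hi => absurd hi (Nat.not_lt_zero i)
  | n + 1, h, i, hi => by
    rw [allB, Bool.and_eq_true] at h
    rcases Nat.lt_succ_iff_lt_or_eq.1 hi with h1 | h1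
    · exact allB_spec h.2 i h1
    · rw [h1]; exact h.1

/-- Soundness of the tables. -/
def sound1 (T : Tab) : Bool :=
  allB (fun c => weq (canon (dec T.k c)) (rpw T (cls T c)) && Nat.blt (cls T c) T.n) (2 ^ T.k)

def sound2 (T : Tab) : Bool :=
  allB (fun a => weq (canon (rpw T a).reverse) (rpw T (rvc T a)) && Nat.blt (rvc T a) 128) T.n

def sound3 (T : Tab) : Bool :=
  allB (fun a => allB (fun b => Nat.beq (pix T a b) 4095 ||
    (Nat.beq (piq T (pix T a b)) (128 * a + b) ||
      Nat.beq (piq T (pix T a b)) (128 * rvc T a + rvc T b))) T.n) T.n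

/-- forces the evaluation of a natural number -/
def force {α : Type} (f : ℕ → α) : ℕ → α
  | 0 => f 0
  | m + 1 => f (m + 1)

theorem force_eq {α : Type} (f : ℕ → α) (n : ℕ) : force f n = f n := by
  cases n <;> rfl

/-- the index of a key -/
def kix (T : Tab) (k : Ky) : ℕ := pix T (cls T (code k.1)) (cls T (code k.2))

/-- the run -/
def run (T : Tab) (s : ℕ) : Pl → ℕ → ℕ → ℕ → Bool
  | [], P, Q, R => Nat.beq P Q && Nat.ble (Nat.add (Nat.mul 2 R) 1) (Nat.shiftLeft 1 s)
  | (Int.ofNat a, k) :: p, P, Q, R =>
    force (fun i => cond (Nat.beq i 4095) false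
      (force (fun P => force (fun R => run T s p P Q R) (Nat.add R a)) (Nat.add P (Nat.add a (Nat.shiftLeft a (Nat.mul s (Nat.succ i))))))) (kix T k)
  | (Int.negSucc a, k) :: p, P, Q, R =>
    force (fun i => cond (Nat.beq i 4095) false
      (force (fun Q => force (fun R => run T s p P Q R) (Nat.add R (Nat.succ a)))
        (Nat.add Q (Nat.add (Nat.succ a) (Nat.shiftLeft (Nat.succ a) (Nat.mul s (Nat.succ i))))))) (kix T k)

end Pool.Agent.Lib_helper57.INT
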