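import Mathlib
import Pool.Agent.Lib_helper57.INT.Fast2

/-!
# Gram certificates
-/

set_option autoImplicit false
set_option linter.unusedSectionVars false
set_option linter.unusedSimpArgs false

namespace Pool.Agent.Lib_helper57.INT

open Finset

/-- lookup -/
def nth {α : Type} (d : α) : List α → ℕ → α
  | [], _ => d
  | x :: _, 0 => x
  | _ :: l, i + 1 => nth d l i

/-- linear combination -/
def linN (f : ℕ → ℤ) (X : ℕ → Pl) : ℕ → Pl
  | 0 => []
  | n + 1 => smulL (f n) (X n) ++ linN f X n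

/-- Gram sum `∑ K a b X_a* N X_b` -/
def gramN (N : Pl) (K : ℕ → ℕ → ℤ) (X : ℕ → Pl) (n : ℕ) : ℕ → Pl
  | 0 => []
  | m + 1 => mulL (adjL (X m)) (mulL N (collect0 (linN (K m) X n) [])) ++ gramN N K X n m

/-- integer sum -/
def sumZ (f : ℕ → ℤ) : ℕ → ℤ
  | 0 => 0
  | n + 1 => f n + sumZ f n

theorem sumZ_eq (f : ℕ → ℤ) (n : ℕ) : sumZ f n = ∑ i ∈ range n, f i := by
  induction n with
  | zero => simp [sumZ]
  | succ n ih => rw [sumZ, ih, sum_range_succ, add_comm]

/-- the positivity check `c K = ∑ d_k l_k l_kᵀ` -/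
def psdB (c : ℕ) (K : ℕ → ℕ → ℤ) (d : ℕ → ℕ) (l : ℕ → ℕ → ℤ) (n m : ℕ) : Bool :=
  Nat.blt 0 c && allB (fun a => allB (fun b =>
    decide ((c : ℤ) * K a b = sumZ (fun k => (d k : ℤ) * (l k a * l k b)) m)) n) n

/-- A block of a certificate. -/
structure Blk where
  M : Pl
  N : Pl
  n : ℕ
  K : List (List ℤ)
  X : List Pl
  c : ℕ
  d : List ℕ
  l : List (List ℤ)

/-- Gram matrix -/
def Blk.k (b : Blk) (i j : ℕ) : ℤ := nth 0 (nth [] b.K i) j

/-- vectors -/
def Blk.x (b : Blk) (i : ℕ) : Pl := nth [] b.X i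

/-- polynomial of a block -/
def Blk.pl (b : Blk) : Pl := mulL b.M (gramN b.N b.k b.x b.n b.n)

/-- positivity check of a block -/
def Blk.ok (b : Blk) : Bool :=
  psdB b.c b.k (fun i => nth 0 b.d i) (fun i j => nth 0 (nth [] b.l i) j) b.n b.n

/-- sum of blocks -/
def sumB : List Blk → Pl
  | [] => []
  | b :: l => b.pl ++ sumB l

/-- homogeneity check -/
def homB (a : ℕ) (p : Pl) : Bool := p.all fun x => x.2.1.length == a && x.2.2.length == a

theorem hom_of_homB {a : ℕ} {p : Pl} (h : homB a p = true) : Hom a a p := by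
  intro x hx
  rw [homB, List.all_eq_true] at h
  simpa using h x hx

/-- homogeneity check of a block: `M` of degree `i`, `N` of degree `j`, `X` of degree `h` -/
def Blk.hom (b : Blk) (k : ℕ) (s : ℕ × ℕ × ℕ) : Bool :=
  homB s.1 b.M && homB s.2.1 b.N && b.X.all (homB s.2.2) && (s.1 + (s.2.2 + (s.2.1 + s.2.2)) == k)

theorem hom_nil (a b : ℕ) : Hom a b [] := by intro x hx; simp at hx

theorem hom_linN {a : ℕ} {f : ℕ → ℤ} {X : ℕ → Pl} (hX : ∀ i, Hom a a (X i)) :
    ∀ n, Hom a a (linN f X n)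
  | 0 => hom_nil a a
  | n + 1 => hom_append (hom_smulL _ (hX n)) (hom_linN hX n)

theorem hom_ins {a b : ℕ} (c : ℤ) (k : Ky) (h1 : k.1.length = a) (h2 : k.2.length = b) :
    ∀ {p : Pl}, Hom a b p → Hom a b (ins c k p)
  | [], _ => by intro x hx; simp [ins] at hx; subst hx; exact ⟨h1, h2⟩
  | (d, l) :: p, hp => by
    unfold ins
    rcases hb : (weq k.1 l.1 && weq k.2 l.2) with _ | _
    · rw [cond_false]
      intro x hx
      rcases List.mem_cons.1 hx with rfl | hx
      · exact hp _ (by simp)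
      · exact hom_ins c k h1 h2 (fun y hy => hp y (by simp [hy])) x hx
    · rw [cond_true]
      intro x hx
      rcases List.mem_cons.1 hx with rfl | hx
      · exact hp (d, l) (by simp)
      · exact hp x (by simp [hx])

theorem hom_collect0 {a b : ℕ} : ∀ {p acc : Pl}, Hom a b p → Hom a b acc →
    Hom a b (collect0 p acc)
  | [], acc, _, h => h
  | (c, k) :: p, acc, hp, ha => by
    rw [collect0]
    have hk := hp (c, k) (by simp)
    exact hom_collect0 (fun y hy => hp y (by simp [hy])) (hom_ins c k hk.1 hk.2 ha)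

theorem hom_gramN {a j : ℕ} {N : Pl} {K : ℕ → ℕ → ℤ} {X : ℕ → Pl} (hN : Hom j j N)
    (hX : ∀ i, Hom a a (X i)) (n : ℕ) :
    ∀ m, Hom (a + (j + a)) (a + (j + a)) (gramN N K X n m)
  | 0 => hom_nil _ _
  | m + 1 => hom_append (hom_mulL (hom_adjL (hX m))
      (hom_mulL hN (hom_collect0 (hom_linN hX n) (hom_nil _ _)))) (hom_gramN hN hX n m)

theorem nth_hom {a : ℕ} : ∀ (l : List Pl), l.all (homB a) = true → ∀ i, Hom a a (nth [] l i)
  | [], _, i => by cases i <;> exact hom_nil _ _
  | x :: l, h, 0 => by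
    rw [List.all_cons, Bool.and_eq_true] at h
    exact hom_of_homB h.1
  | x :: l, h, i + 1 => by
    rw [List.all_cons, Bool.and_eq_true] at h
    exact nth_hom l h.2 i

theorem Blk.hom_pl {b : Blk} {k : ℕ} {s : ℕ × ℕ × ℕ} (h : b.hom k s = true) :
    Hom k k b.pl := by
  rw [Blk.hom, Bool.and_eq_true, Bool.and_eq_true, Bool.and_eq_true, beq_iff_eq] at h
  obtain ⟨⟨⟨h1, h2⟩, h3⟩, h4⟩ := h
  rw [← h4]
  exact hom_mulL (hom_of_homB h1) (hom_gramN (hom_of_homB h2) (nth_hom b.X h3) _ _)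

section

variable {R : Type*} [Ring R] [StarRing R] {E : Ky → R} {t : R →+ ℝ}

theorem mat_linN (f : ℕ → ℤ) (X : ℕ → Pl) (n : ℕ) :
    mat E (linN f X n) = ∑ b ∈ range n, f b • mat E (X b) := by
  induction n with
  | zero => simp [linN, mat]
  | succ n ih => rw [linN, mat_append, mat_smulL, ih, sum_range_succ, add_comm]

theorem mat_gramN (h : Rp E t) (N : Pl) (K : ℕ → ℕ → ℤ) (X : ℕ → Pl) (n m : ℕ) :
    mat E (gramN N K X n m) = ∑ a ∈ range m, star (mat E (X a)) *
      (mat E N * ∑ b ∈ range n, K a b • mat E (X b)) := by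
  induction m with
  | zero => simp [gramN, mat]
  | succ m ih =>
    rw [gramN, mat_append, mat_mulL h, mat_mulL h, mat_adjL h, mat_collect0, mat_linN, ih,
      sum_range_succ, add_comm]
    simp [mat]

theorem psd_form {c : ℕ} {K : ℕ → ℕ → ℤ} {d : ℕ → ℕ} {l : ℕ → ℕ → ℤ} {n m : ℕ}
    (hp : psdB c K d l n m = true) (M N : R)
    (hM : ∀ y : R, 0 ≤ t (M * (star y * (N * y)))) (x : ℕ → R) :
    0 ≤ t (M * ∑ a ∈ range n, star (x a) * (N * ∑ b ∈ range n, K a b • x b)) := by
  rw [psdB, Bool.and_eq_true] at hp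
  have hc : 0 < c := Nat.le_of_ble_eq_true hp.1
  have hK : ∀ a < n, ∀ b < n, (c : ℤ) * K a b = ∑ k ∈ range m, (d k : ℤ) * (l k a * l k b) := by
    intro a ha b hb
    have := allB_spec (allB_spec hp.2 a ha) b hb
    rw [decide_eq_true_eq, sumZ_eq] at this
    exact this
  have key : (c : ℤ) • (∑ a ∈ range n, star (x a) * (N * ∑ b ∈ range n, K a b • x b)) =
      ∑ k ∈ range m, (d k : ℤ) • (star (∑ a ∈ range n, l k a • x a) *
        (N * ∑ a ∈ range n, l k a • x a)) := by
    have e1 : ∀ k, star (∑ a ∈ range n, l k a • x a) * (N * ∑ a ∈ range n, l k a • x a) =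
        ∑ a ∈ range n, ∑ b ∈ range n, (l k a * l k b) • (star (x a) * (N * x b)) := by
      intro k
      rw [star_sum, sum_mul]
      refine sum_congr rfl fun a _ => ?_
      rw [mul_sum, mul_sum]
      refine sum_congr rfl fun b _ => ?_
      rw [star_smul, mul_smul_comm, mul_smul_comm, smul_mul_assoc, smul_smul]
      congr 1
      simp [mul_comm]
    have e2 : (∑ a ∈ range n, star (x a) * (N * ∑ b ∈ range n, K a b • x b)) =
        ∑ a ∈ range n, ∑ b ∈ range n, K a b • (star (x a) * (N * x b)) := by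
      refine sum_congr rfl fun a _ => ?_
      rw [mul_sum, mul_sum]
      refine sum_congr rfl fun b _ => ?_
      rw [mul_smul_comm, mul_smul_comm]
    have e4 : (∑ k ∈ range m, (d k : ℤ) • (star (∑ a ∈ range n, l k a • x a) *
        (N * ∑ a ∈ range n, l k a • x a))) = ∑ k ∈ range m, ∑ a ∈ range n, ∑ b ∈ range n,
        (d k : ℤ) • (l k a * l k b) • (star (x a) * (N * x b)) := by
      refine sum_congr rfl fun k _ => ?_
      rw [e1, smul_sum]
      refine sum_congr rfl fun a _ => ?_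
      rw [smul_sum]
    rw [e2, e4, smul_sum, sum_comm]
    refine sum_congr rfl fun a ha => ?_
    rw [smul_sum, sum_comm]
    refine sum_congr rfl fun b hb => ?_
    rw [smul_smul, hK a (mem_range.1 ha) b (mem_range.1 hb), sum_smul]
    refine sum_congr rfl fun k _ => ?_
    rw [smul_smul]
  have h2 : (c : ℝ) * t (M * ∑ a ∈ range n, star (x a) * (N * ∑ b ∈ range n, K a b • x b)) =
      ∑ k ∈ range m, (d k : ℝ) * t (M * (star (∑ a ∈ range n, l k a • x a) *
        (N * ∑ a ∈ range n, l k a • x a))) := by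
    have h3 : (c : ℤ) • t (M * ∑ a ∈ range n, star (x a) * (N * ∑ b ∈ range n, K a b • x b)) =
        ∑ k ∈ range m, (d k : ℤ) • t (M * (star (∑ a ∈ range n, l k a • x a) *
          (N * ∑ a ∈ range n, l k a • x a))) := by
      rw [← map_zsmul, ← mul_smul_comm, key, mul_sum, map_sum]
      refine sum_congr rfl fun k _ => ?_
      rw [mul_smul_comm, map_zsmul]
    rw [zsmul_eq_mul, Int.cast_natCast] at h3
    rw [h3]
    refine sum_congr rfl fun k _ => ?_
    rw [zsmul_eq_mul, Int.cast_natCast]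
  have h4 : 0 ≤ (c : ℝ) * t (M * ∑ a ∈ range n, star (x a) *
      (N * ∑ b ∈ range n, K a b • x b)) := by
    rw [h2]
    exact sum_nonneg fun k _ => mul_nonneg (Nat.cast_nonneg _) (hM _)
  have hc' : (0 : ℝ) < c := by exact_mod_cast hc
  exact nonneg_of_mul_nonneg_right h4 hc'

theorem Blk.nonneg (h : Rp E t) {b : Blk} (hb : b.ok = true)
    (hM : ∀ y : R, 0 ≤ t (mat E b.M * (star y * (mat E b.N * y)))) :
    0 ≤ t (mat E b.pl) := by
  rw [Blk.pl, mat_mulL h, mat_gramN h]
  exact psd_form hb _ _ hM _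

/-- Gram certificate -/
theorem gcert (h : Rp E t) {T : Tab} (hT : Snd T) {bs : List Blk} {hs : List (ℕ × ℕ × ℕ)}
    (hok : bs.all Blk.ok = true)
    (hhom : (List.zipWith (fun b s => b.hom T.k s) bs hs).all id = true)
    (hlen : bs.length ≤ hs.length)
    (hM : ∀ b ∈ bs, ∀ y : R, 0 ≤ t (mat E b.M * (star y * (mat E b.N * y))))
    {target : Pl} (ht : Hom T.k T.k target) {s : ℕ}
    (hr : run T s (target ++ smulL (-1) (sumB bs)) 0 0 0 = true) :
    0 ≤ t (mat E target) := by
  have h1 : ∀ (bs : List Blk) (hs : List (ℕ × ℕ × ℕ)),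
      (List.zipWith (fun b s => b.hom T.k s) bs hs).all id = true → bs.length ≤ hs.length →
      Hom T.k T.k (sumB bs) := by
    intro bs
    induction bs with
    | nil => intro _ _ _; exact hom_nil _ _
    | cons b bs ih =>
      intro hs h1 h2
      cases hs with
      | nil => simp at h2
      | cons s hs =>
        rw [List.zipWith_cons_cons, List.all_cons, Bool.and_eq_true] at h1
        exact hom_append (Blk.hom_pl h1.1) (ih hs h1.2 (by simpa using h2))
  have h2 : 0 ≤ t (mat E (sumB bs)) := by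
    clear hr hhom hlen h1
    induction bs with
    | nil => simp [sumB, mat]
    | cons b bs ih =>
      rw [List.all_cons, Bool.and_eq_true] at hok
      rw [sumB, mat_append, map_add]
      exact add_nonneg (Blk.nonneg h hok.1 (hM b (by simp)))
        (ih hok.2 (fun b' hb' => hM b' (by simp [hb'])))
  have h3 := of_run h hT (hom_append ht (hom_smulL (-1) (h1 bs hs hhom hlen))) hr
  rw [mat_append, mat_smulL, map_add, map_zsmul] at h3
  have h4 : ((-1 : ℤ) • t (mat E (sumB bs)) : ℝ) = - t (mat E (sumB bs)) := by simp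
  rw [h4] at h3
  linarith

end

end Pool.Agent.Lib_helper57.INT
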