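import Mathlib
import Pool.Agent.Lib_helper57.INT.Gram

/-!
# Common definitions for the certificates
-/

set_option autoImplicit false

namespace Pool.Agent.Lib_helper57.INT

/-- `A - D` in diagonal form -/
def mN : Pl := [(1, ([false], [false])), (-1, ([true], [true]))]

/-- multiple of a sum of words, in diagonal form -/
def sumD (c : ℤ) (ws : List Wd) : Pl := ws.map fun w => (c, (w, w))

/-- a power together with an expansion -/
def tPow (p : Pl) (k : ℕ) : List (ℤ × ℕ) → Pl
  | [] => powL p k
  | x :: l => sumD x.1 (wds k x.2) ++ tPow p k l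

/-- the Weyl part -/
def weylL (k : ℕ) : List (ℤ × ℕ) → Pl
  | [] => []
  | x :: l => prodL x.1 (wds k x.2) (wds k x.2) ++ weylL k l

end Pool.Agent.Lib_helper57.INT
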