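import Mathlib
import Pool.Agent.Lib_helper57.INT.Defs
import Pool.Agent.Lib_helper57.INT.Seven

/-!
# Common lemmas for the integer values of `α`
-/

set_option autoImplicit false
set_option linter.unusedSectionVars false
set_option linter.unusedSimpArgs false

open scoped Kronecker ComplexOrder

namespace Pool.Agent.Lib_helper57.INT

open Matrix Pool.Agent.Lib_helper98.Renyi

/-- the unit -/
def oneL : Pl := [(1, ([], []))]

/-- admissible weights -/
def isL (p : Pl) : Bool := decide (p = oneL) || (decide (p = mP) || decide (p = mN))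

/-- admissible weights of the tensor system -/
def isT (p : Pl) : Bool := decide (p = oneL) || decide (p = mP)

section

variable {n m : Type*} [Fintype n] [DecidableEq n] [Fintype m] [DecidableEq m]
variable {A D : Matrix n n ℂ} {A' D' : Matrix m m ℂ}

theorem pos_of_psd {M N : Matrix n n ℂ} (hM : M.PosSemidef) (hN : N.PosSemidef)
    (y : Matrix n n ℂ) : 0 ≤ rtH n (M * (star y * (N * y))) := by
  rw [rtH_apply]
  apply rt_mul_nonneg hM
  have := psd_conj hN yᴴ
  rwa [conjTranspose_conjTranspose, Matrix.mul_assoc] at this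

theorem mat_one1 (A D : Matrix n n ℂ) : mat (E1 A D) oneL = 1 := by
  simp [oneL, mat, E1, ev]

theorem mat_mP1 (A D : Matrix n n ℂ) : mat (E1 A D) mP = A + D := by
  simp [mP, mat, E1, ev]

theorem mat_mN1 (A D : Matrix n n ℂ) : mat (E1 A D) mN = A - D := by
  simp [mN, mat, E1, ev, sub_eq_add_neg]

theorem mat_one2 (A D : Matrix n n ℂ) (A' D' : Matrix m m ℂ) :
    mat (E2 A D A' D') oneL = 1 := by
  simp [oneL, mat, E2, ev]

theorem isL_psd (h : Adm A D) {p : Pl} (hp : isL p = true) :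
    (mat (E1 A D) p).PosSemidef := by
  rw [isL, Bool.or_eq_true, Bool.or_eq_true, decide_eq_true_eq, decide_eq_true_eq,
    decide_eq_true_eq] at hp
  rcases hp with rfl | rfl | rfl
  · rw [mat_one1]; exact PosSemidef.one
  · rw [mat_mP1]; exact h.add
  · rw [mat_mN1]; exact h.sub

theorem isT_psd (h : (A ⊗ₖ A' + D ⊗ₖ D').PosSemidef) {p : Pl} (hp : isT p = true) :
    (mat (E2 A D A' D') p).PosSemidef := by
  rw [isT, Bool.or_eq_true, decide_eq_true_eq, decide_eq_true_eq] at hp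
  rcases hp with rfl | rfl
  · rw [mat_one2]; exact PosSemidef.one
  · rw [mat_mP]; exact h

theorem t_sumD (A D : Matrix n n ℂ) (c : ℤ) (ws : List Wd) :
    rtH n (mat (E1 A D) (sumD c ws)) = (c : ℝ) * (ws.map fun w => rt (ev A D w)).sum := by
  induction ws with
  | nil => simp [sumD, mat]
  | cons w ws ih =>
    have : sumD c (w :: ws) = (c, (w, w)) :: sumD c ws := rfl
    rw [this, mat, map_add, map_zsmul, ih, List.map_cons, List.sum_cons, zsmul_eq_mul, mul_add]
    rfl

theorem t_tPow (hA : A.IsHermitian) (hD : D.IsHermitian) (p : Pl) (k : ℕ)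
    (l : List (ℤ × ℕ)) : rtH n (mat (E1 A D) (tPow p k l)) =
      rt ((mat (E1 A D) p) ^ k) + (l.map fun x => (x.1 : ℝ) * Sj A D k x.2).sum := by
  induction l with
  | nil => rw [tPow, mat_powL (rp1 hA hD), rtH_apply]; simp
  | cons x l ih =>
    rw [tPow, mat_append', map_add, ih, t_sumD, List.map_cons, List.sum_cons, Sj]
    ring

theorem hom_sumD (c : ℤ) (k j : ℕ) : Hom k k (sumD c (wds k j)) := by
  intro x hx
  obtain ⟨w, hw, rfl⟩ := List.mem_map.1 hx
  exact ⟨wds_length k j w hw, wds_length k j w hw⟩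

theorem hom_tPow {p : Pl} (hp : Hom 1 1 p) (k : ℕ) : ∀ l : List (ℤ × ℕ), Hom k k (tPow p k l)
  | [] => by
    have := hom_powL hp k
    rwa [mul_one] at this
  | _ :: l => hom_append (hom_sumD _ _ _) (hom_tPow hp k l)

theorem hom_weylL (k : ℕ) : ∀ l : List (ℤ × ℕ), Hom k k (weylL k l)
  | [] => hom_nil _ _
  | _ :: l => hom_append (hom_prodL _ _ _ _) (hom_weylL k l)

theorem hom_mP : Hom 1 1 mP := hom_of_homB (by decide)
theorem hom_mN : Hom 1 1 mN := hom_of_homB (by decide)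

/-- reality of the sums of traces -/
def Rl (k : ℕ) : Prop := (List.range (k + 1)).all (fun j => chk0 (adjL (sumL 1 (wds k j)) ++
    smulL (-1) (sumL 1 (wds k j)))) = true

theorem cS_imk (hA : A.IsHermitian) (hD : D.IsHermitian) {k j : ℕ} (hk : Rl k) (hj : j < k + 1) :
    (cS A D (wds k j)).im = 0 := by
  rw [Rl, List.all_eq_true] at hk
  exact cS_im hA hD (hk j (List.mem_range.2 hj))

theorem t_prodk (hA : A.IsHermitian) (hD : D.IsHermitian) (A' D' : Matrix m m ℂ) {k j : ℕ}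
    (hk : Rl k) (hj : j < k + 1) (c : ℤ) :
    rtH (n × m) (mat (E2 A D A' D') (prodL c (wds k j) (wds k j))) =
      (c : ℝ) * (Sj A D k j * Sj A' D' k j) := by
  rw [t_prodL, Complex.mul_re, cS_imk hA hD hk hj, cS_re, cS_re, Sj, Sj]
  ring

theorem t_weylL (hA : A.IsHermitian) (hD : D.IsHermitian) (A' D' : Matrix m m ℂ) {k : ℕ}
    (hk : Rl k) : ∀ l : List (ℤ × ℕ), (∀ x ∈ l, x.2 < k + 1) →
    rtH (n × m) (mat (E2 A D A' D') (weylL k l)) =
      (l.map fun x => (x.1 : ℝ) * (Sj A D k x.2 * Sj A' D' k x.2)).sum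
  | [], _ => by simp [weylL, mat]
  | x :: l, h => by
    rw [weylL, mat_append', map_add, t_prodk hA hD A' D' hk (h x (by simp)),
      t_weylL hA hD A' D' hk l (fun y hy => h y (by simp [hy])), List.map_cons, List.sum_cons]

/-- expansions of the powers -/
theorem Gfun_expand (h : Adm A D) {k : ℕ} (hk : k ≠ 0) {T : Tab} (hT : Snd T) (hTk : T.k = k)
    {s : ℕ} {l₁ l₂ : List (ℤ × ℕ)} (h₁ : run T s (tPow mP k l₁) 0 0 0 = true)
    (h₂ : run T s (tPow mN k l₂) 0 0 0 = true) :
    Gfun (k : ℝ) A D = (-(l₁.map fun x => (x.1 : ℝ) * Sj A D k x.2).sum -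
      (l₂.map fun x => (x.1 : ℝ) * Sj A D k x.2).sum) / 2 - Sj A D k 0 := by
  have a := of_run (rp1 h.psd.1 h.herm) hT (by rw [hTk]; exact hom_tPow hom_mP k l₁) h₁
  have b := of_run (rp1 h.psd.1 h.herm) hT (by rw [hTk]; exact hom_tPow hom_mN k l₂) h₂
  rw [t_tPow h.psd.1 h.herm, mat_mP1] at a
  rw [t_tPow h.psd.1 h.herm, mat_mN1] at b
  rw [Gfun, trPow_nat hk h.psd, trPow_nat hk h.add, trPow_nat hk h.sub, Sj_zero]
  linarith

/-- The gap inequality. -/
theorem gap_of_cert (hA : A.IsHermitian) (hD : D.IsHermitian) (hA' : A'.IsHermitian)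
    (hD' : D'.IsHermitian) (hM : (A ⊗ₖ A' + D ⊗ₖ D').PosSemidef) {k : ℕ} (hR : Rl k)
    {T : Tab} (hT : Snd T) (hTk : T.k = k) {s : ℕ} (T0 : ℤ) (l : List (ℤ × ℕ))
    (hl : ∀ x ∈ l, x.2 < k + 1) {bs : List Blk} {hs : List (ℕ × ℕ × ℕ)}
    (hok : bs.all Blk.ok = true)
    (hhom : (List.zipWith (fun b s => b.hom k s) bs hs).all id = true)
    (hlen : bs.length ≤ hs.length) (hw : bs.all (fun b => isT b.M && isT b.N) = true)
    (hr : run T s ((smulL T0 (powL mP k) ++ weylL k l) ++ smulL (-1) (sumB bs)) 0 0 0 = true) :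
    0 ≤ (T0 : ℝ) * rt ((A ⊗ₖ A' + D ⊗ₖ D') ^ k) +
      (l.map fun x => (x.1 : ℝ) * (Sj A D k x.2 * Sj A' D' k x.2)).sum := by
  have hrp := rp2 hA hD hA' hD'
  subst hTk
  have h := gcert hrp hT hok hhom hlen (fun b hb y => by
      rw [List.all_eq_true] at hw
      have := hw b hb
      rw [Bool.and_eq_true] at this
      exact pos_of_psd (isT_psd hM this.1) (isT_psd hM this.2) y)
    (hom_append (hom_smulL T0 (by have := hom_powL hom_mP T.k; rwa [mul_one] at this))
      (hom_weylL T.k l)) hr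
  rw [mat_append', mat_smulL, mat_powL hrp, mat_mP, map_add, map_zsmul,
    t_weylL hA hD A' D' hR l hl, zsmul_eq_mul, rtH_apply] at h
  exact h

/-- The moment inequality. -/
theorem mom_of_cert (h : Adm A D) {T : Tab} (hT : Snd T) {s : ℕ}
    {bs : List Blk} {hs : List (ℕ × ℕ × ℕ)}
    (hok : bs.all Blk.ok = true)
    (hhom : (List.zipWith (fun b s => b.hom T.k s) bs hs).all id = true)
    (hlen : bs.length ≤ hs.length) (hw : bs.all (fun b => isL b.M && isL b.N) = true)
    {target : Pl} (ht : Hom T.k T.k target) {v : ℝ} (hv : rtH n (mat (E1 A D) target) = v)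
    (hr : run T s (target ++ smulL (-1) (sumB bs)) 0 0 0 = true) : 0 ≤ v := by
  rw [← hv]
  exact gcert (rp1 h.psd.1 h.herm) hT hok hhom hlen (fun b hb y => by
      rw [List.all_eq_true] at hw
      have := hw b hb
      rw [Bool.and_eq_true] at this
      exact pos_of_psd (isL_psd h this.1) (isL_psd h this.2) y) ht hr

theorem trace_pow_real {k : ℕ} (hA : A.IsHermitian) : (trace (A ^ k)).im = 0 := by
  have hh : (A ^ k).IsHermitian := hA.pow k
  have : star (trace (A ^ k)) = trace (A ^ k) := by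
    rw [← trace_conjTranspose, hh.eq]
  have h5 := congrArg Complex.im this
  simp at h5
  linarith

theorem Gfun_tensor (h : Adm A D) (h' : Adm A' D') {k : ℕ} (hk : k ≠ 0) :
    Gfun (k : ℝ) (A ⊗ₖ A') (D ⊗ₖ D') = (rt ((A ⊗ₖ A' + D ⊗ₖ D') ^ k) +
      rt ((A ⊗ₖ A' - D ⊗ₖ D') ^ k)) / 2 - Sj A D k 0 * Sj A' D' k 0 := by
  have hh := h.kron h'
  have h0 : rt ((A ⊗ₖ A') ^ k) = rt (A ^ k) * rt (A' ^ k) := by
    have e : ∀ k : ℕ, (A ⊗ₖ A') ^ k = (A ^ k) ⊗ₖ (A' ^ k) := by
      intro k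
      induction k with
      | zero => simp
      | succ k ih => rw [pow_succ, ih, ← mul_kronecker_mul, ← pow_succ, ← pow_succ]
    rw [e, rt_kron (trace_pow_real h.psd.1)]
  rw [Gfun, trPow_nat hk hh.psd, trPow_nat hk hh.add, trPow_nat hk hh.sub, h0, Sj_zero, Sj_zero]

end

end Pool.Agent.Lib_helper57.INT
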