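import Mathlib
import Pool.Agent.Lib_helper57.INT.Common
import Pool.Agent.Lib_helper57.INT.Gap8
import Pool.Agent.Lib_helper57.INT.Mom8

/-!
# `α = 8`
-/

set_option autoImplicit false
set_option linter.unusedSectionVars false
set_option linter.unusedSimpArgs false

open scoped Kronecker ComplexOrder

namespace Pool.Agent.Lib_helper57.INT

open Matrix Pool.Agent.Lib_helper98.Renyi

section

variable {n m : Type*} [Fintype n] [DecidableEq n] [Fintype m] [DecidableEq m]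
variable {A D : Matrix n n ℂ} {A' D' : Matrix m m ℂ}

theorem Gfun_eight (h : Adm A D) :
    Gfun 8 A D = Sj A D 8 2 + Sj A D 8 4 + Sj A D 8 6 + Sj A D 8 8 := by
  have h3 : (8 : ℝ) = ((8 : ℕ) : ℝ) := by norm_num
  rw [h3, Gfun_expand h (k := 8) (by norm_num) snd8 rfl runP8 runN8]
  simp only [List.map_cons, List.map_nil, List.sum_cons, List.sum_nil]
  push_cast
  ring

theorem gap8 (hA : A.IsHermitian) (hD : D.IsHermitian) (hA' : A'.IsHermitian)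
    (hD' : D'.IsHermitian) (hM : (A ⊗ₖ A' + D ⊗ₖ D').PosSemidef) :
    840 * (Sj A D 8 0 * Sj A' D' 8 0) + 105 * (Sj A D 8 1 * Sj A' D' 8 1) +
      30 * (Sj A D 8 2 * Sj A' D' 8 2) + 15 * (Sj A D 8 3 * Sj A' D' 8 3) +
      12 * (Sj A D 8 4 * Sj A' D' 8 4) + 15 * (Sj A D 8 5 * Sj A' D' 8 5) +
      30 * (Sj A D 8 6 * Sj A' D' 8 6) + 105 * (Sj A D 8 7 * Sj A' D' 8 7) +
      840 * (Sj A D 8 8 * Sj A' D' 8 8) ≤
    840 * rt ((A ⊗ₖ A' + D ⊗ₖ D') ^ 8) := by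
  have h := gap_of_cert hA hD hA' hD' hM (k := 8) chkR8 snd8 rfl 840 [(-840, 0), (-105, 1),
    (-30, 2), (-15, 3), (-12, 4), (-15, 5), (-30, 6), (-105, 7), (-840, 8)] (by decide) okK8
    homK8 (by decide) (by decide) runK8
  simp only [List.map_cons, List.map_nil, List.sum_cons, List.sum_nil] at h
  push_cast at h
  linarith

theorem mu82 (h : Adm A D) : 4 * Sj A D 8 4 ≤ 10 * Sj A D 8 2 := by
  have h1 := mom_of_cert h snd8 okM82 homM82 lenM82 (by decide +kernel)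
    (hom_append (hom_sumD _ 8 _) (hom_sumD _ 8 _)) (v := 10 * Sj A D 8 2 - 4 * Sj A D 8 4)
    (by rw [mat_append', map_add, t_sumD, t_sumD, Sj, Sj]; push_cast; ring) runM82
  linarith

theorem mu84 (h : Adm A D) : 10 * Sj A D 8 6 ≤ 4 * Sj A D 8 4 := by
  have h1 := mom_of_cert h snd8 okM84 homM84 lenM84 (by decide +kernel)
    (hom_append (hom_sumD _ 8 _) (hom_sumD _ 8 _)) (v := 4 * Sj A D 8 4 - 10 * Sj A D 8 6)
    (by rw [mat_append', map_add, t_sumD, t_sumD, Sj, Sj]; push_cast; ring) runM84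
  linarith

theorem mu86 (h : Adm A D) : 28 * Sj A D 8 8 ≤ 1 * Sj A D 8 6 := by
  have h1 := mom_of_cert h snd8 okM86 homM86 lenM86 (by decide +kernel)
    (hom_append (hom_sumD _ 8 _) (hom_sumD _ 8 _)) (v := 1 * Sj A D 8 6 - 28 * Sj A D 8 8)
    (by rw [mat_append', map_add, t_sumD, t_sumD, Sj, Sj]; push_cast; ring) runM86
  linarith

/-- **The key inequality for `α = 8`.** -/
theorem key_eight (h : Adm A D) (h' : Adm A' D') :
    Gfun 8 A D * Gfun 8 A' D' ≤ (2 ^ ((8 : ℝ) - 1) - 1) * Gfun 8 (A ⊗ₖ A') (D ⊗ₖ D') := by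
  have hk := h.kron h'
  have hp : (2 : ℝ) ^ ((8 : ℝ) - 1) = 128 := by
    rw [show (8 : ℝ) - 1 = ((7 : ℕ) : ℝ) by norm_num, Real.rpow_natCast]; norm_num
  have g1 := gap8 h.psd.1 h.herm h'.psd.1 h'.herm hk.add
  have hD'n : (-D').IsHermitian := h'.herm.neg
  have hn : (A ⊗ₖ A' + D ⊗ₖ (-D')).PosSemidef := by
    rw [kron_neg, ← sub_eq_add_neg]; exact hk.sub
  have g2 := gap8 h.psd.1 h.herm h'.psd.1 hD'n hn
  rw [kron_neg, ← sub_eq_add_neg] at g2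
  simp only [Sj_neg] at g2
  have h3 : (8 : ℝ) = ((8 : ℕ) : ℝ) := by norm_num
  have g3 : Gfun 8 (A ⊗ₖ A') (D ⊗ₖ D') = (rt ((A ⊗ₖ A' + D ⊗ₖ D') ^ 8) +
      rt ((A ⊗ₖ A' - D ⊗ₖ D') ^ 8)) / 2 - Sj A D 8 0 * Sj A' D' 8 0 := by
    rw [h3, Gfun_tensor h h' (by norm_num)]
  rw [g3, Gfun_eight h, Gfun_eight h', hp]
  have a1 := mu82 h
  have a2 := mu84 h
  have a3 := mu86 h
  have b1 := mu82 h'
  have b2 := mu84 h'
  have b3 := mu86 h'
  generalize rt ((A ⊗ₖ A' + D ⊗ₖ D') ^ 8) = P at *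
  generalize rt ((A ⊗ₖ A' - D ⊗ₖ D') ^ 8) = Q at *
  generalize Sj A D 8 0 = s0 at *
  generalize Sj A D 8 1 = s1 at *
  generalize Sj A D 8 2 = s2 at *
  generalize Sj A D 8 3 = s3 at *
  generalize Sj A D 8 4 = s4 at *
  generalize Sj A D 8 5 = s5 at *
  generalize Sj A D 8 6 = s6 at *
  generalize Sj A D 8 7 = s7 at *
  generalize Sj A D 8 8 = s8 at *
  generalize Sj A' D' 8 0 = r0 at *
  generalize Sj A' D' 8 1 = r1 at *
  generalize Sj A' D' 8 2 = r2 at *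
  generalize Sj A' D' 8 3 = r3 at *
  generalize Sj A' D' 8 4 = r4 at *
  generalize Sj A' D' 8 5 = r5 at *
  generalize Sj A' D' 8 6 = r6 at *
  generalize Sj A' D' 8 7 = r7 at *
  generalize Sj A' D' 8 8 = r8 at *
  have c1 : 0 ≤ s2 / 28 - s4 / 70 := by linarith
  have c2 : 0 ≤ s4 / 70 - s6 / 28 := by linarith
  have c3 : 0 ≤ s6 / 28 - s8 := by linarith
  have d1 : 0 ≤ r2 / 28 - r4 / 70 := by linarith
  have d2 : 0 ≤ r4 / 70 - r6 / 28 := by linarith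
  have d3 : 0 ≤ r6 / 28 - r8 := by linarith
  have e1 := mul_nonneg c1 d1
  have e2 := mul_nonneg c2 d2
  have e3 := mul_nonneg c3 d3
  have e4 := mul_nonneg (add_nonneg c1 c2) (add_nonneg d1 d2)
  have e5 := mul_nonneg (add_nonneg c2 c3) (add_nonneg d2 d3)
  have e6 := mul_nonneg (add_nonneg (add_nonneg c1 c2) c3) (add_nonneg (add_nonneg d1 d2) d3)
  norm_num at g1 g2
  have key : 127 * (s2 * r2 / 28 + s4 * r4 / 70 + s6 * r6 / 28 + s8 * r8) -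
      (s2 + s4 + s6 + s8) * (r2 + r4 + r6 + r8) =
      28 * 70 * ((s2 / 28 - s4 / 70) * (r2 / 28 - r4 / 70)) +
      70 * 28 * ((s4 / 70 - s6 / 28) * (r4 / 70 - r6 / 28)) +
      28 * ((s6 / 28 - s8) * (r6 / 28 - r8)) +
      28 * 28 * ((s2 / 28 - s4 / 70 + (s4 / 70 - s6 / 28)) *
        (r2 / 28 - r4 / 70 + (r4 / 70 - r6 / 28))) +
      70 * ((s4 / 70 - s6 / 28 + (s6 / 28 - s8)) * (r4 / 70 - r6 / 28 + (r6 / 28 - r8))) +
      28 * ((s2 / 28 - s4 / 70 + (s4 / 70 - s6 / 28) + (s6 / 28 - s8)) *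
        (r2 / 28 - r4 / 70 + (r4 / 70 - r6 / 28) + (r6 / 28 - r8))) := by
    ring
  linarith [g1, g2, e1, e2, e3, e4, e5, e6, key]

end

section final

variable {b₁ b₂ : Type*} [Fintype b₁] [DecidableEq b₁] [Fintype b₂] [DecidableEq b₂]

/-- **Theorem.** The inequality `H ≤ F` for `α = 8` and all pairs of quantum states. -/
theorem alpha_eight (σ₁ : Fin 2 → Matrix b₁ b₁ ℂ) (σ₂ : Fin 2 → Matrix b₂ b₂ ℂ)
    (h₁ : ∀ x, IsDensity (σ₁ x)) (h₂ : ∀ x, IsDensity (σ₂ x)) :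
    Hsum 8 σ₁ σ₂ ≤ Fval 8 σ₁ σ₂ :=
  Hsum_le_Fval h₁ h₂ (by norm_num) (by norm_num)
    (key_eight (adm_of_density h₁ (by norm_num)) (adm_of_density h₂ (by norm_num)))

end final

end Pool.Agent.Lib_helper57.INT
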